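import Pool.Agent.H24.L5.Stmts
import Pool.Agent.H34.KA.TYA

/-!
# L5, row IFK: side information and unbounded positions
-/

set_option autoImplicit false

namespace Pool.L5

open Finset Real
open Pool.Agent.H49.Ent Pool.Agent.H32.Dense Pool.STK Pool.KA

namespace IFK

section
variable {Ω : Type} [Fintype Ω] {β γ κ : Type} {p : Ω → ℝ}

lemma dbl_congr (hp : ∀ ω, 0 ≤ p ω) {b : Ω → β} {b' : Ω → γ} (h : Det p b b') (h' : Det p b' b)
    (w : Ω × Ω) : dbl p b w = dbl p b' w := by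
  classical
  unfold dbl glue
  by_cases h1 : p w.1 = 0
  · simp [h1]
  by_cases h2 : p w.2 = 0
  · simp [h2]
  have h1' : 0 < p w.1 := lt_of_le_of_ne (hp _) (Ne.symm h1)
  have h2' : 0 < p w.2 := lt_of_le_of_ne (hp _) (Ne.symm h2)
  have e : law p b (b w.1) = law p b' (b' w.1) :=
    le_antisymm (law_mono_of_det hp h h1') (law_mono_of_det hp h' h1')
  by_cases h3 : b w.1 = b w.2
  · rw [if_pos h3, if_pos (h _ _ h1' h2' h3), e]
  · rw [if_neg h3, if_neg (fun h4 => h3 (h' _ _ h1' h2' h4))]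

open Classical in
lemma dbl_cond (hp : ∀ ω, 0 ≤ p ω) (L : Ω → β) (A : Ω → κ) (h : Det p L A) (a : κ)
    (w : Ω × Ω) : law p A a * dbl (cond p A a) L w = if A w.1 = a then dbl p L w else 0 := by
  unfold dbl glue
  by_cases hA : A w.1 = a
  swap
  · rw [if_neg hA]
    have : cond p A a w.1 = 0 := by
      unfold Pool.Agent.H49.Ent.cond
      rw [if_neg hA]
    simp [this]
  rw [if_pos hA]
  by_cases h1 : p w.1 = 0
  · have : cond p A a w.1 = 0 := by
      unfold Pool.Agent.H49.Ent.cond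
      simp [h1]
    simp [this, h1]
  by_cases h2 : p w.2 = 0
  · have : cond p A a w.2 = 0 := by
      unfold Pool.Agent.H49.Ent.cond
      simp [h2]
    simp [this, h2]
  have h1' : 0 < p w.1 := lt_of_le_of_ne (hp _) (Ne.symm h1)
  have h2' : 0 < p w.2 := lt_of_le_of_ne (hp _) (Ne.symm h2)
  by_cases h3 : L w.1 = L w.2
  swap
  · rw [if_neg h3, if_neg h3, mul_zero]
  rw [if_pos h3, if_pos h3]
  have hA2 : A w.2 = a := by rw [← hA]; exact (h _ _ h1' h2' h3).symm
  have e1 : cond p A a w.1 = p w.1 / law p A a := by unfold Pool.Agent.H49.Ent.cond; rw [if_pos hA]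
  have e2 : cond p A a w.2 = p w.2 / law p A a := by unfold Pool.Agent.H49.Ent.cond; rw [if_pos hA2]
  have e3 : law p (fun ω => (L ω, A ω)) (L w.1, a) = law p L (L w.1) := by
    have h4 := law_mono_of_det hp (X := fun ω => (L ω, A ω)) (Y := L)
      (fun ω ω' _ _ h => (Prod.ext_iff.mp h).1) h1'
    have h5 := law_mono_of_det hp (X := L) (Y := fun ω => (L ω, A ω))
      (fun ω ω' h6 h7 h8 => Prod.ext h8 (h ω ω' h6 h7 h8)) h1'
    rw [← hA]
    exact le_antisymm h4 h5
  have ha : 0 < law p A a := hA ▸ law_pos hp A h1'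
  have hL : 0 < law p L (L w.1) := law_pos hp L h1'
  rw [e1, e2, law_cond, e3]
  field_simp

lemma Gf_sum [DecidableEq κ] (hp : ∀ ω, 0 ≤ p ω) (L : Ω → β) (A : Ω → κ) (h : Det p L A) (M : ℕ)
    (τ : Ω → ℤ) :
    ∑ a ∈ univ.image A, law p A a * Gf M (cond p A a) L τ = Gf M p L τ := by
  classical
  unfold Gf Ex
  simp_rw [Finset.mul_sum]
  rw [Finset.sum_comm]
  refine Finset.sum_congr rfl fun w _ => ?_
  have h1 : ∀ a ∈ univ.image A, law p A a * (dbl (cond p A a) L w * ell M (τ w.1) (τ w.2)) =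
      if A w.1 = a then dbl p L w * ell M (τ w.1) (τ w.2) else 0 := by
    intro a _
    rw [← mul_assoc, dbl_cond hp L A h a w]
    split_ifs <;> simp
  rw [Finset.sum_congr rfl h1, Finset.sum_ite_eq, if_pos (Finset.mem_image_of_mem A (mem_univ _))]

lemma law_sum [DecidableEq κ] (h1 : ∑ ω, p ω = 1) (A : Ω → κ) :
    ∑ a ∈ univ.image A, law p A a = 1 := by
  rw [← h1]
  exact sum_law p A

end

theorem ifk : IFKStmt := by
  intro hA ε hε
  have hl2 : 0 < Real.log 2 := Real.log_pos (by norm_num)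
  obtain ⟨B₀, B₁, hB₁, h⟩ := hA (3 * ε * Real.log 2) (by positivity)
  refine ⟨4 * Real.log 5 + B₀ / 3, B₁ / 3, by positivity, ?_⟩
  intro J Ω _ ζ p Z v u τ hf
  classical
  have hp := hf.hp
  have hM : (0 : ℝ) < 2 ^ J := by positivity
  obtain ⟨c, hc⟩ : ∃ c : Ω → Fin 4 → ℤ, ∀ ω k, c ω k = ⌊u ω k / 2 ^ J⌋ := ⟨_, fun _ _ => rfl⟩
  obtain ⟨v', hv'⟩ : ∃ v' : Ω → Fin 4 → ℤ, ∀ ω, v' ω = if 0 < p ω then v ω else 0 :=
    ⟨_, fun _ => rfl⟩
  obtain ⟨T, hT⟩ : ∃ T : Ω → ℕ, ∀ ω, T ω = if 0 < p ω then (τ ω).toNat else 0 :=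
    ⟨_, fun _ => rfl⟩
  obtain ⟨W, hW⟩ : ∃ W : Ω → (Fin 4 → ℤ) × ζ, W = fun ω => (c ω, Z ω) := ⟨_, rfl⟩
  obtain ⟨X, hX⟩ : ∃ X : Ω → Fin 4 → ℤ, X = fun ω => rd (pos (2 ^ J) (u ω) (v ω) (τ ω)) :=
    ⟨_, rfl⟩
  have hv1 : ∀ ω, 0 < p ω → v' ω = v ω := fun ω h => by rw [hv', if_pos h]
  have hT1 : ∀ ω, 0 < p ω → ((T ω : ℕ) : ℤ) = τ ω := fun ω h => by
    rw [hT, if_pos h]
    exact Int.toNat_of_nonneg (hf.hτ ω h).1
  have hvb : ∀ ω k, |v' ω k| ≤ 2 ^ J := by
    intro ω k
    rw [hv']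
    split_ifs with h
    · have := hf.hv ω h k
      push_cast at this
      exact this
    · simp
  have hTb : ∀ ω, T ω < 2 ^ J := by
    intro ω
    rw [hT]
    split_ifs with h
    · have := (hf.hτ ω h).2
      have h0 := (hf.hτ ω h).1
      have h2 : (((τ ω).toNat : ℕ) : ℤ) < ((2 ^ J : ℕ) : ℤ) := by
        rw [Int.toNat_of_nonneg h0]
        exact this
      exact_mod_cast h2
    · positivity
  -- the families
  have key : ∀ a, 0 < law p W a →
      3 * H (cond p W a) v ≤ 3 * (H (cond p W a) (fun ω => (X ω, τ ω)) - J * Real.log 2) +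
        4 * (J * Real.log 2) + 11 * (J * Real.log 2 - CH (cond p W a) τ (bv Z v)) +
        B₀ + B₁ * Gf (2 ^ J) (cond p W a) (bv Z v) τ + 3 * ε * Real.log 2 * J := by
    intro a ha
    have hq : ∀ ω, 0 ≤ cond p W a ω := cond_nonneg hp W a
    have hsup : ∀ ω, 0 < cond p W a ω → 0 < p ω ∧ c ω = a.1 ∧ Z ω = a.2 := by
      intro ω h1
      have h2 := (cond_pos_iff hp W a ω).1 h1
      refine ⟨h2.1, ?_, ?_⟩
      · have := congrArg Prod.fst h2.2
        rw [hW] at this
        exact this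
      · have := congrArg Prod.snd h2.2
        rw [hW] at this
        exact this
    let F : Pool.KA.Fam 4 J :=
      { Ω := Ω
        ζ := Unit
        fin := inferInstance
        p := cond p W a
        u := fun ω k => u ω k / 2 ^ J - c ω k
        d := fun ω k => (v' ω k : ℝ) / 2 ^ J
        T := T
        Z := fun _ => ()
        isLaw := ⟨hq, sum_cond p W ha.ne'⟩
        dir := by
          intro ω k
          rw [abs_div, abs_of_pos hM, div_le_one hM]
          exact_mod_cast hvb ω k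
        tim := hTb }
    have h1 := h J F (by
      intro ω k
      change |u ω k / 2 ^ J - c ω k| ≤ 1
      rw [hc]
      have e1 := Int.floor_le (u ω k / 2 ^ J)
      have e2 := Int.lt_floor_add_one (u ω k / 2 ^ J)
      rw [abs_le]
      constructor <;> linarith)
    -- the direction
    have hD : F.D J = v' := by
      funext ω k
      change ⌊(2 : ℝ) ^ J * ((v' ω k : ℝ) / 2 ^ J)⌋ = v' ω k
      rw [mul_div_cancel₀ _ hM.ne', Int.floor_intCast]
    have e1 : H F.p (F.D J) = H (cond p W a) v := by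
      rw [hD]
      refine H_congr hq ?_ ?_
      · intro ω ω' a1 a2 h
        rw [hv1 ω (hsup ω a1).1, hv1 ω' (hsup ω' a2).1, h]
      · intro ω ω' a1 a2 h
        rw [← hv1 ω (hsup ω a1).1, ← hv1 ω' (hsup ω' a2).1, h]
    -- the position
    have hXF : ∀ ω, 0 < p ω → ∀ k, F.X J ω k = X ω k - 2 ^ J * c ω k := by
      intro ω h0 k
      rw [hX]
      change ⌊(2 : ℝ) ^ J * (u ω k / 2 ^ J - c ω k + (T ω : ℝ) / 2 ^ J * ((v' ω k : ℝ) / 2 ^ J))⌋ =
        ⌊u ω k + (τ ω : ℝ) / ((2 ^ J : ℕ) : ℝ) * (v ω k : ℝ)⌋ - 2 ^ J * c ω k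
      have e2 : (T ω : ℝ) = (τ ω : ℝ) := by exact_mod_cast hT1 ω h0
      rw [hv1 ω h0, e2]
      have e3 : (2 : ℝ) ^ J * (u ω k / 2 ^ J - c ω k + (τ ω : ℝ) / 2 ^ J * ((v ω k : ℝ) / 2 ^ J)) =
          u ω k + (τ ω : ℝ) / ((2 ^ J : ℕ) : ℝ) * (v ω k : ℝ) - ((2 ^ J * c ω k : ℤ) : ℝ) := by
        push_cast
        field_simp
        ring
      rw [e3, Int.floor_sub_intCast]
    have e2 : Sl F = H (cond p W a) (fun ω => (X ω, τ ω)) := by
      refine H_congr hq ?_ ?_
      · intro ω ω' a1 a2 h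
        have b1 := (Prod.ext_iff.mp h).1
        have b2 := (Prod.ext_iff.mp h).2
        simp only at b1 b2
        refine Prod.ext ?_ ?_
        · funext k
          change F.X J ω k = F.X J ω' k
          rw [hXF ω (hsup ω a1).1 k, hXF ω' (hsup ω' a2).1 k, b1, (hsup ω a1).2.1,
            (hsup ω' a2).2.1]
        · change T ω = T ω'
          have := hT1 ω (hsup ω a1).1
          have := hT1 ω' (hsup ω' a2).1
          omega
      · intro ω ω' a1 a2 h
        have b1 := (Prod.ext_iff.mp h).1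
        have b2 := (Prod.ext_iff.mp h).2
        simp only at b1 b2
        refine Prod.ext ?_ ?_
        · funext k
          change X ω k = X ω' k
          have b3 := congrFun b1 k
          rw [hXF ω (hsup ω a1).1 k, hXF ω' (hsup ω' a2).1 k, (hsup ω a1).2.1,
            (hsup ω' a2).2.1] at b3
          omega
        · change τ ω = τ ω'
          have b4 : T ω = T ω' := b2
          have := hT1 ω (hsup ω a1).1
          have := hT1 ω' (hsup ω' a2).1
          omega
    -- the line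
    have hl1 : Det (cond p W a) F.l (bv Z v) := by
      intro ω ω' a1 a2 h
      have b2 : (fun k => (v' ω k : ℝ) / 2 ^ J) = fun k => (v' ω' k : ℝ) / 2 ^ J :=
        (Prod.ext_iff.mp h).2
      refine Prod.ext ?_ ?_
      · change v ω = v ω'
        rw [← hv1 ω (hsup ω a1).1, ← hv1 ω' (hsup ω' a2).1]
        funext k
        have b3 : (v' ω k : ℝ) / 2 ^ J = (v' ω' k : ℝ) / 2 ^ J := congrFun b2 k
        have b4 : (v' ω k : ℝ) = v' ω' k := by
          field_simp at b3
          exact b3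
        exact_mod_cast b4
      · change Z ω = Z ω'
        rw [(hsup ω a1).2.2, (hsup ω' a2).2.2]
    have hl2' : Det (cond p W a) (bv Z v) F.l := by
      intro ω ω' a1 a2 h
      have b1 : u ω = u ω' := hf.hu ω ω' (hsup ω a1).1 (hsup ω' a2).1 h
      have b2 : v ω = v ω' := (Prod.ext_iff.mp h).1
      refine Prod.ext ?_ ?_
      · change (fun k => u ω k / 2 ^ J - (c ω k : ℝ)) = fun k => u ω' k / 2 ^ J - (c ω' k : ℝ)
        rw [b1, (hsup ω a1).2.1, (hsup ω' a2).2.1]
      · change (fun k => (v' ω k : ℝ) / 2 ^ J) = fun k => (v' ω' k : ℝ) / 2 ^ J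
        rw [hv1 ω (hsup ω a1).1, hv1 ω' (hsup ω' a2).1, b2]
    have e3 : Kl F = J * Real.log 2 - CH (cond p W a) τ (bv Z v) := by
      unfold Kl
      congr 1
      refine CH_congr hq ?_ ?_ hl1 hl2'
      · intro ω ω' a1 a2 h
        have b1 : T ω = T ω' := (Prod.ext_iff.mp h).1
        have := hT1 ω (hsup ω a1).1
        have := hT1 ω' (hsup ω' a2).1
        omega
      · intro ω ω' a1 a2 h
        have b1 : τ ω = τ ω' := (Prod.ext_iff.mp h).1
        have := hT1 ω (hsup ω a1).1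
        have := hT1 ω' (hsup ω' a2).1
        change T ω = T ω'
        omega
    have e4 : Gl F = Gf (2 ^ J) (cond p W a) (bv Z v) τ := by
      unfold Gl Gf Ex
      refine Finset.sum_congr rfl fun w _ => ?_
      change dbl (cond p W a) F.l w * ell (2 ^ J) ((T w.1 : ℕ) : ℤ) ((T w.2 : ℕ) : ℤ) = _
      rw [dbl_congr hq hl1 hl2' w]
      by_cases h0 : dbl (cond p W a) (bv Z v) w = 0
      · rw [h0, zero_mul, zero_mul]
      · have h2 : cond p W a w.1 ≠ 0 ∧ cond p W a w.2 ≠ 0 := by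
          unfold dbl glue at h0
          refine ⟨fun h3 => h0 ?_, fun h3 => h0 ?_⟩ <;> simp [h3]
        have h3 : 0 < cond p W a w.1 := lt_of_le_of_ne (hq _) (Ne.symm h2.1)
        have h4 : 0 < cond p W a w.2 := lt_of_le_of_ne (hq _) (Ne.symm h2.2)
        rw [hT1 _ (hsup _ h3).1, hT1 _ (hsup _ h4).1]
    rw [e1, e2, e3, e4] at h1
    exact h1
  -- averages
  have hbW : Det p (bv Z v) W := by
    intro ω ω' a1 a2 h
    have b1 : u ω = u ω' := hf.hu ω ω' a1 a2 h
    have b2 : Z ω = Z ω' := (Prod.ext_iff.mp h).2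
    rw [hW]
    refine Prod.ext ?_ b2
    funext k
    change c ω k = c ω' k
    rw [hc, hc, b1]
  have s1 := CH_eq_sum hp v W
  have s2 := CH_eq_sum hp (fun ω => (X ω, τ ω)) W
  have s3 : CH p τ (bv Z v) = ∑ a ∈ univ.image W, law p W a * CH (cond p W a) τ (bv Z v) := by
    have t1 := CH_eq_sum hp (fun ω => (τ ω, bv Z v ω)) W
    have t2 := CH_eq_sum hp (bv Z v) W
    have t3 : CH p τ (bv Z v) = CH p (fun ω => (τ ω, bv Z v ω)) W - CH p (bv Z v) W := by
      have r1 : H p (fun ω => ((τ ω, bv Z v ω), W ω)) = H p (fun ω => (τ ω, bv Z v ω)) := by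
        refine H_congr hp ?_ ?_
        · intro ω ω' a1 a2 h
          exact Prod.ext h (hbW ω ω' a1 a2 (Prod.ext_iff.mp h).2)
        · intro ω ω' a1 a2 h
          exact (Prod.ext_iff.mp h).1
      have r2 : H p (fun ω => (bv Z v ω, W ω)) = H p (bv Z v) := by
        refine H_congr hp ?_ ?_
        · intro ω ω' a1 a2 h
          exact Prod.ext h (hbW ω ω' a1 a2 h)
        · intro ω ω' a1 a2 h
          exact (Prod.ext_iff.mp h).1
      unfold CH
      rw [r1, r2]
      ring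
    rw [t3, t1, t2, ← Finset.sum_sub_distrib]
    refine Finset.sum_congr rfl fun a _ => ?_
    unfold CH
    ring
  have s4 := Gf_sum hp (bv Z v) W hbW (2 ^ J) τ
  have s5 := law_sum hf.h1 W
  have hsum : ∑ a ∈ univ.image W, law p W a * (3 * H (cond p W a) v) ≤
      ∑ a ∈ univ.image W, law p W a *
        (3 * (H (cond p W a) (fun ω => (X ω, τ ω)) - J * Real.log 2) +
        4 * (J * Real.log 2) + 11 * (J * Real.log 2 - CH (cond p W a) τ (bv Z v)) +
        B₀ + B₁ * Gf (2 ^ J) (cond p W a) (bv Z v) τ + 3 * ε * Real.log 2 * J) := by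
    refine Finset.sum_le_sum fun a _ => ?_
    rcases (law_nonneg hp W a).eq_or_lt with h0 | h0
    · rw [← h0, zero_mul, zero_mul]
    · exact mul_le_mul_of_nonneg_left (key a h0) h0.le
  have hL : ∑ a ∈ univ.image W, law p W a * (3 * H (cond p W a) v) = 3 * CH p v W := by
    rw [s1, Finset.mul_sum]
    exact Finset.sum_congr rfl fun a _ => by ring
  have hR : ∑ a ∈ univ.image W, law p W a *
        (3 * (H (cond p W a) (fun ω => (X ω, τ ω)) - J * Real.log 2) +
        4 * (J * Real.log 2) + 11 * (J * Real.log 2 - CH (cond p W a) τ (bv Z v)) +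
        B₀ + B₁ * Gf (2 ^ J) (cond p W a) (bv Z v) τ + 3 * ε * Real.log 2 * J) =
      3 * CH p (fun ω => (X ω, τ ω)) W - 11 * CH p τ (bv Z v) +
        B₁ * Gf (2 ^ J) p (bv Z v) τ +
        (12 * (J * Real.log 2) + B₀ + 3 * ε * Real.log 2 * J) := by
    have t1 : (12 * (J * Real.log 2) + B₀ + 3 * ε * Real.log 2 * J : ℝ) =
        ∑ a ∈ univ.image W, law p W a * (12 * (J * Real.log 2) + B₀ + 3 * ε * Real.log 2 * J) := by
      rw [← Finset.sum_mul, s5, one_mul]
    rw [t1, s2, s3, ← s4, Finset.mul_sum, Finset.mul_sum, Finset.mul_sum,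
      ← Finset.sum_sub_distrib, ← Finset.sum_add_distrib, ← Finset.sum_add_distrib]
    exact Finset.sum_congr rfl fun a _ => by ring
  rw [hL, hR] at hsum
  -- the coarse position
  have k1 : CH p v Z ≤ CH p c Z + CH p v W := by
    rw [hW]
    exact CH_le_add hp v c Z
  have k2 : CH p c Z + CH p (fun ω => (X ω, τ ω)) W =
      CH p (fun ω => (X ω, τ ω)) Z + CH p c (fun ω => ((X ω, τ ω), Z ω)) := by
    rw [hW, ← CH_chain hp (fun ω => (X ω, τ ω)) c Z, ← CH_chain hp c (fun ω => (X ω, τ ω)) Z]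
    refine CH_congr hp ?_ ?_ (fun _ _ _ _ h => h) (fun _ _ _ _ h => h)
    · intro ω ω' _ _ h
      have b := (Prod.ext_iff.mp h).1
      exact Prod.ext (Prod.ext_iff.mp b).2 (Prod.ext_iff.mp b).1
    · intro ω ω' _ _ h
      have b := (Prod.ext_iff.mp h).1
      exact Prod.ext (Prod.ext_iff.mp b).2 (Prod.ext_iff.mp b).1
  have k3 : CH p c (fun ω => ((X ω, τ ω), Z ω)) ≤ 4 * Real.log 5 := by
    have h3 := CH_le_card hp hf.h1 c (fun ω => ((X ω, τ ω), Z ω))
      (fun w => Fintype.piFinset fun k =>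
        Finset.Icc (⌊(w.1.1 k : ℝ) / 2 ^ J⌋ - 2) (⌊(w.1.1 k : ℝ) / 2 ^ J⌋ + 2))
      (by
        intro ω h0
        rw [Fintype.mem_piFinset]
        intro k
        rw [Finset.mem_Icc, hc]
        change ⌊(X ω k : ℝ) / 2 ^ J⌋ - 2 ≤ _ ∧ _ ≤ ⌊(X ω k : ℝ) / 2 ^ J⌋ + 2
        have hv2 : |(v ω k : ℝ)| ≤ 2 ^ J := by
          have := hf.hv ω h0 k
          push_cast at this
          exact_mod_cast this
        have hτ0 : (0 : ℝ) ≤ τ ω := by exact_mod_cast (hf.hτ ω h0).1
        have hτ1 : (τ ω : ℝ) ≤ 2 ^ J := by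
          have := (hf.hτ ω h0).2.le
          push_cast at this
          exact_mod_cast this
        have hq : |(τ ω : ℝ) / ((2 ^ J : ℕ) : ℝ) * (v ω k : ℝ)| ≤ 2 ^ J := by
          push_cast
          rw [abs_mul, abs_div, abs_of_nonneg hτ0, abs_of_pos hM]
          calc (τ ω : ℝ) / 2 ^ J * |(v ω k : ℝ)| ≤ 1 * 2 ^ J := by
                apply mul_le_mul _ hv2 (abs_nonneg _) zero_le_one
                rw [div_le_one hM]
                exact hτ1
            _ = 2 ^ J := one_mul _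
        rw [abs_le] at hq
        have hX1 : (X ω k : ℝ) ≤ u ω k + (τ ω : ℝ) / ((2 ^ J : ℕ) : ℝ) * (v ω k : ℝ) := by
          rw [hX]
          exact Int.floor_le _
        have hX2 : u ω k + (τ ω : ℝ) / ((2 ^ J : ℕ) : ℝ) * (v ω k : ℝ) < (X ω k : ℝ) + 1 := by
          rw [hX]
          exact Int.lt_floor_add_one _
        have hJ1 : (1 : ℝ) ≤ 2 ^ J := one_le_pow₀ (by norm_num)
        have g1 : (X ω k : ℝ) / 2 ^ J - 1 ≤ u ω k / 2 ^ J := by
          rw [div_sub_one hM.ne']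
          exact div_le_div_of_nonneg_right (by linarith [hq.2]) hM.le
        have g2 : u ω k / 2 ^ J ≤ (X ω k : ℝ) / 2 ^ J + 2 := by
          rw [div_add' _ _ _ hM.ne']
          exact div_le_div_of_nonneg_right (by linarith [hq.1]) hM.le
        constructor
        · have g3 := Int.floor_le_floor g1
          rw [Int.floor_sub_one] at g3
          omega
        · have g3 := Int.floor_le_floor g2
          have g4 : ⌊(X ω k : ℝ) / 2 ^ J + 2⌋ = ⌊(X ω k : ℝ) / 2 ^ J⌋ + 2 := by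
            exact_mod_cast Int.floor_add_intCast ((X ω k : ℝ) / 2 ^ J) 2
          omega)
    refine h3.trans (le_of_eq ?_)
    have h4 : ∀ ω : Ω, Real.log (((fun w : ((Fin 4 → ℤ) × ℤ) × ζ => Fintype.piFinset fun k =>
        Finset.Icc (⌊(w.1.1 k : ℝ) / 2 ^ J⌋ - 2) (⌊(w.1.1 k : ℝ) / 2 ^ J⌋ + 2))
        ((X ω, τ ω), Z ω)).card : ℝ) = 4 * Real.log 5 := by
      intro ω
      rw [Fintype.card_piFinset]
      have h5 : ∀ k : Fin 4, (Finset.Icc (⌊(X ω k : ℝ) / 2 ^ J⌋ - 2)
          (⌊(X ω k : ℝ) / 2 ^ J⌋ + 2)).card = 5 := by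
        intro k
        rw [Int.card_Icc]
        omega
      simp only [h5]
      rw [Finset.prod_const]
      simp only [Finset.card_univ, Fintype.card_fin]
      have h6 : (((5 ^ 4 : ℕ) : ℕ) : ℝ) = (5 : ℝ) ^ 4 := by norm_num
      rw [h6, Real.log_pow]
      norm_num
    simp only [h4]
    exact Ex_const hf.h1 _
  have k4 : Pool.LQ.Sb (2 ^ J) p Z v u τ = CH p (fun ω => (X ω, τ ω)) Z := by
    rw [CH_chain hp X τ Z]
    unfold Pool.LQ.Sb Sf
    congr 1
    rw [hX]
    refine CH_congr hp ?_ ?_ ?_ ?_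
    · intro ω ω' _ _ h
      exact (Prod.ext_iff.mp h).1
    · intro ω ω' _ _ h
      exact (Prod.ext_iff.mp h).1
    · intro ω ω' _ _ h
      exact Prod.ext (Prod.ext_iff.mp h).2 (Prod.ext_iff.mp h).1
    · intro ω ω' _ _ h
      exact Prod.ext (Prod.ext_iff.mp h).2 (Prod.ext_iff.mp h).1
  have k5 : Kf (2 ^ J) p (bv Z v) τ = J * Real.log 2 - CH p τ (bv Z v) := by
    unfold Kf
    push_cast
    rw [Real.log_pow]
  rw [k4, k5]
  linarith

end IFK

end Pool.L5
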